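import Mathlib
import Pool.Agent.H81.Refine2

set_option autoImplicit false

namespace Pool.Agent.Results.MP_902647_gt.Fewer

open Set Pool.Agent.H81.Refine

theorem result : ∃ (n m k : ℕ) (C : Set (Fin n → ℝ)) (c : Fin m → (Fin n → ℝ)),
    Function.Injective c ∧ range c = C.extremePoints ℝ ∧ C = convexHull ℝ (range c) ∧
    ¬ IsSimplex C ∧ k < m ∧
    ∃ (D : Set (Fin k → ℝ)) (f : (Fin k → ℝ) → (Fin n → ℝ))
      (G : Set (stdSimplex ℝ (Fin k) → ℝ)) (g : (stdSimplex ℝ (Fin k) → ℝ) → (C → ℝ)),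
      Refines C (stdSimplex ℝ (Fin k)) D f G g :=
  ⟨4, 12, 10, H81.Refine2.C, H81.Refine2.W, H81.Refine2.W_inj, H81.Refine2.ext_eq, rfl,
    H81.Refine2.not_simplex, by norm_num, _, _, _, _, H81.Refine2.refines⟩

end Pool.Agent.Results.MP_902647_gt.Fewer
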